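import Pool.Agent.W659.FD.Defs

/-!
Project FD (helper659): statements of the tasks.
-/

set_option autoImplicit false

namespace Pool.Agent.W659.FD

open MvPolynomial

/-- UNI: a polynomial in one variable over `𝔽_p` which is not a constant times a square is a square
at about half of the points (from `Pool.Agent.H341R2.weil_bound`) -/
def S_UNI : Prop := ∀ D : ℕ, ∃ K : ℝ, 0 ≤ K ∧ ∀ (p : ℕ) [Fact p.Prime], 2 < p →
  ∀ f : Polynomial (ZMod p), f.natDegree ≤ D →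
    (∀ (c : ZMod p) (h : Polynomial (ZMod p)), f ≠ Polynomial.C c * h ^ 2) →
    ((({x : ZMod p | ∃ w : ZMod p, w ^ 2 = f.eval x}).ncard : ℕ) : ℝ) ≤
      p / 2 + K * Real.sqrt p

/-- the polynomial `q` in one variable with polynomial coefficients has total degree at most `N` -/
def Filt {F : Type} [Field F] {n : ℕ} (q : Polynomial (MvPolynomial (Fin n) F)) (N : ℕ) : Prop :=
  ∀ j, q.coeff j = 0 ∨ (q.coeff j).totalDegree + j ≤ N

/-- APP: the approximate square root of a monic polynomial of even degree -/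
def S_APP : Prop := ∀ (F : Type) [Field F], (2 : F) ≠ 0 → ∀ (n : ℕ)
  (Q : Polynomial (MvPolynomial (Fin n) F)) (e : ℕ), Q.Monic → Q.natDegree = 2 * e →
  Filt Q (2 * e) → ∃ g : Polynomial (MvPolynomial (Fin n) F), g.Monic ∧ g.natDegree = e ∧
    Filt g e ∧ Filt (Q - g ^ 2) (2 * e) ∧ ∀ j, e ≤ j → (Q - g ^ 2).coeff j = 0

/-- LINE: the same as UNI in `n` variables -/
def S_LINE : Prop := S_UNI → S_APP → ∀ n D : ℕ, 1 ≤ n → ∃ p₁ : ℕ, ∀ (p : ℕ) [Fact p.Prime],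
  p₁ ≤ p → ∀ f : MvPolynomial (Fin n) (ZMod p), f.totalDegree ≤ D →
    (∀ (c : ZMod p) (g : MvPolynomial (Fin n) (ZMod p)), f ≠ C c * g ^ 2) →
    (((Sq f).ncard : ℕ) : ℝ) ≤ 3 / 4 * (p : ℝ) ^ n

/-- ULT: if `F(P; T)` is not a square for all complex points `P`, then the same is true modulo all
large primes (up to constants) -/
def S_ULT : Prop := ∀ (r n : ℕ) (a b : Fin r → ℤ) (F : Poly r n),
  (∀ V : Fin r → Fin 3 → ℂ, (∀ i, OnE (a i) (b i) (V i)) →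
    ∀ g : MvPolynomial (Fin n) ℂ, spec F V ≠ g ^ 2) →
  ∃ p₁ : ℕ, ∀ (p : ℕ) [Fact p.Prime], p₁ ≤ p →
    ∀ V : Fin r → Fin 3 → ZMod p, (∀ i, OnE (a i) (b i) (V i)) →
      ∀ (c : ZMod p) (g : MvPolynomial (Fin n) (ZMod p)), spec F V ≠ C c * g ^ 2

/-- ABSG: the abstract sieve theorem with arbitrary sets of residues -/
def S_ABSG : Prop := ∀ (G : Type) [AddCommGroup G] [AddGroup.FG G] (n : ℕ), 1 ≤ n →
  ∀ (M D : ℕ), 0 < M → 0 < D → ∀ (Ω : (p : ℕ) → G → Set (Fin n → ZMod p)) (η : ℝ),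
  0 < η → η ≤ 1 →
  (∀ p : ℕ, p.Prime → 2 < p → ¬ p ∣ D → M ∣ p + 1 →
    (∀ P P' R : G, P = P' + (p + 1) • R → Ω p P = Ω p P') ∧
    (∀ P, ((Ω p P).ncard : ℝ) ≤ (1 - η) * (p : ℝ) ^ n)) →
  ∀ ε : ℝ, 0 < ε → ∃ C : ℝ, ∀ H : ℕ, 1 ≤ H →
    (Nat.card {t : Fin n → ℤ // (∀ j, |t j| ≤ H) ∧ ∃ P : G, ∀ p : ℕ, p.Prime → 2 < p → ¬ p ∣ D →
      M ∣ p + 1 → (fun j => (t j : ZMod p)) ∈ Ω p P} : ℝ) ≤
      C * (H : ℝ) ^ ((n : ℝ) - 1 / 5 + ε)

end Pool.Agent.W659.FD
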