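import Pool.Agent.H925R3.DD.Final
import Pool.Agent.W659.FD.Stm

/-! Project FD (helper659): the abstract sieve theorem with arbitrary sets of residues. -/

set_option autoImplicit false

namespace Pool.Agent.W659.FD

open Finset Filter Topology Pool.Agent.H925R3.DC Pool.Agent.H925R3.DD

theorem absg_aux (hCLS : CLS) (hPRM : PRMG) (hMOM : MOM) (hPAR : PARB) : S_ABSG := by
  classical
  intro G _ _ n hn M D hM hD Ω η₀ hη0 hη1 hp ε hε
  obtain ⟨t, ht⟩ := hCLS G
  obtain ⟨δ, hδ, hδ1, η, hη, hη1', H₀, hpar⟩ := hPAR t 1 n η₀ le_rfl hn hη0 hη1 ε hε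
  obtain ⟨X₀, hprm⟩ := hPRM M D (-1) 1 hM hD ⟨-1, 0, by ring⟩ (Or.inl rfl) η hη
  have hev := (tendsto_X hδ1).eventually_ge_atTop (max X₀ 1)
  obtain ⟨H₁, hH₁⟩ := (hev.and (eventually_ge_atTop (max H₀ 1))).exists_forall_of_atTop
  set PP : (Fin n → ℤ) → Prop := fun c => ∃ P : G, ∀ p : ℕ, p.Prime → 2 < p → ¬ p ∣ D →
      M ∣ p + 1 → (fun j => (c j : ZMod p)) ∈ Ω p P with hPP
  have key : ∀ H : ℕ, H₁ ≤ H →
      (Nat.card {c : Fin n → ℤ // (∀ j, |c j| ≤ H) ∧ PP c} : ℝ) ≤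
      (H : ℝ) ^ ((n : ℝ) - 1 / 5 + ε) := by
    intro H hH
    obtain ⟨hX, hHH⟩ := hH₁ H hH
    have hHH0 : H₀ ≤ H := (le_max_left _ _).trans hHH
    have hH1 : 1 ≤ H := (le_max_right _ _).trans hHH
    have hHR : (1 : ℝ) ≤ H := by exact_mod_cast hH1
    set X : ℝ := Real.log H ^ (2 - δ) with hXdef
    have hX1 : 1 ≤ X := (le_max_right _ _).trans hX
    obtain ⟨S, N, hN, hS1, hS2, hN2⟩ := hprm X ((le_max_left _ _).trans hX)
    have hS1' : ∀ p ∈ S, p.Prime ∧ 2 < p ∧ (p : ℝ) ≤ X ∧ ¬ p ∣ D ∧ M ∣ p + 1 ∧ p + 1 ∣ N := by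
      intro p hpS
      obtain ⟨a1, a2, a3, a4, a5, a6⟩ := hS1 p hpS
      refine ⟨a1, a2, a3, a4, ?_, ?_⟩
      · rw [sub_neg_eq_add] at a5
        exact_mod_cast a5
      · exact_mod_cast a6
    have hn1 : X ^ (1 - η) / ((1 : ℕ) : ℝ) - 1 ≤ (S.card : ℝ) := by
      rw [Nat.cast_one, div_one]
      linarith
    obtain ⟨hbig, k, hk2, hk3⟩ := hpar H hHH0 X rfl S.card hn1 N hN hN2
    obtain ⟨T, hT1, hT2⟩ := ht N hN
    have hch : (0 : ℝ) < S.card.choose k := by exact_mod_cast hk2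
    have hden : (0 : ℝ) < η₀ ^ (2 * k) * (S.card.choose k : ℝ) ^ 2 := by positivity
    set A : ℝ := (S.card.choose k : ℝ) * (2 * (H : ℝ) + 1) ^ n +
        (S.card.choose k : ℝ) ^ 2 * (n * (⌊X⌋₊ : ℝ) ^ (2 * k) * (2 * (H : ℝ) + 1) ^ (n - 1)) with hA
    have hA0 : 0 ≤ A := by positivity
    -- one class
    have hclass : ∀ g ∈ T, (Nat.card {c : Fin n → ℤ // (∀ j, |c j| ≤ H) ∧
        ∀ p ∈ S, (fun j => (c j : ZMod p)) ∈ Ω p g} : ℝ) ≤
        A / (η₀ ^ (2 * k) * (S.card.choose k : ℝ) ^ 2) := by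
      intro g _
      have h1 := hMOM n S k ⌊X⌋₊ (2 * H + 1) η₀ (fun _ _ => 1) (fun _ _ => -((H : ℤ) + 1))
        (fun p => Ω p g) hn hη0 hη1 (by
        intro p hpS
        obtain ⟨a1, a2, a3, a4, a5, -⟩ := hS1' p hpS
        refine ⟨a1, Nat.le_floor a3, fun i h => ?_, (hp p a1 a2 a4 a5).2 g⟩
        have h2 := Int.natAbs_dvd_natAbs.2 h
        simp only [Int.natAbs_natCast, Int.natAbs_one, Nat.dvd_one] at h2
        omega)
      rw [le_div_iff₀ hden]
      have hcast : ((2 * H + 1 : ℕ) : ℝ) = 2 * (H : ℝ) + 1 := by push_cast; ring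
      rw [hcast, ← hA] at h1
      refine le_trans ?_ h1
      refine mul_le_mul_of_nonneg_right ?_ hden.le
      have hb : ∀ (c : {c : Fin n → ℤ // (∀ j, |c j| ≤ H) ∧
          ∀ p ∈ S, (fun j => (c j : ZMod p)) ∈ Ω p g}) (j : Fin n),
          (((c.1 j + (H + 1)).toNat : ℕ) : ℤ) = c.1 j + (H + 1) := by
        intro c j
        have := abs_le.1 (c.2.1 j)
        rw [Int.toNat_of_nonneg]
        linarith [this.1]
      have hfin : Finite {t : Fin n → ℕ // (∀ i, t i ∈ Icc 1 (2 * H + 1)) ∧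
          ∀ p ∈ S, (fun i => (((fun _ _ => 1 : ℕ → Fin n → ℤ) p i * t i +
            (fun _ _ => -((H : ℤ) + 1) : ℕ → Fin n → ℤ) p i : ℤ) : ZMod p)) ∈ Ω p g} := by
        have : {t : Fin n → ℕ | ∀ i, t i ∈ Set.Icc 1 (2 * H + 1)}.Finite :=
          Set.Finite.pi' fun _ => Set.finite_Icc _ _
        apply Set.Finite.subset this
        rintro c ⟨hc, -⟩ j
        simpa using hc j
      have h5 := Nat.card_le_card_of_injective
        (α := {c : Fin n → ℤ // (∀ j, |c j| ≤ H) ∧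
          ∀ p ∈ S, (fun j => (c j : ZMod p)) ∈ Ω p g})
        (β := {t : Fin n → ℕ // (∀ i, t i ∈ Icc 1 (2 * H + 1)) ∧
          ∀ p ∈ S, (fun i => (((fun _ _ => 1 : ℕ → Fin n → ℤ) p i * t i +
            (fun _ _ => -((H : ℤ) + 1) : ℕ → Fin n → ℤ) p i : ℤ) : ZMod p)) ∈ Ω p g})
        (fun c => ⟨fun j => (c.1 j + (H + 1)).toNat, by
          constructor
          · intro j
            have h2 := abs_le.1 (c.2.1 j)
            have h3 := hb c j
            rw [mem_Icc]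
            constructor
            · zify; rw [h3]; linarith [h2.1]
            · zify; rw [h3]; linarith [h2.2]
          · intro p hpS
            have h2 := c.2.2 p hpS
            convert h2 using 2 with j
            rw [hb c j]
            ring_nf⟩) (by
          intro c c' hcc
          apply Subtype.ext
          funext j
          have h1 := congrArg (fun f => (((f.1 j : ℕ) : ℤ))) hcc
          simp only at h1
          rw [hb c j, hb c' j] at h1
          linarith)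
      exact_mod_cast h5
    have hub := union_bound H T PP
      (fun g c => ∀ p ∈ S, (fun j => (c j : ZMod p)) ∈ Ω p g)
      (by
        rintro c ⟨P, hP⟩
        obtain ⟨g, hg, R, hR⟩ := hT2 P
        refine ⟨g, hg, ?_⟩
        intro p hpS
        obtain ⟨a1, a2, a3, a4, a5, a6⟩ := hS1' p hpS
        obtain ⟨w, hw⟩ := a6
        have hPR : P = g + (p + 1) • (w • R) := by
          rw [hR, hw, mul_smul]
        have h1 := (hp p a1 a2 a4 a5).1 P g (w • R) hPR
        have h2 := hP p a1 a2 a4 a5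
        rwa [h1] at h2) _ hclass
    refine hub.trans ?_
    have hTN : (T.card : ℝ) ≤ (N : ℝ) ^ t := by exact_mod_cast hT1
    refine le_trans ?_ hk3
    gcongr
  refine ⟨1 + (2 * (H₁ : ℝ) + 1) ^ n, fun H hH => ?_⟩
  have hHR : (1 : ℝ) ≤ H := by exact_mod_cast hH
  have hcR : (1 : ℝ) ≤ n := by exact_mod_cast hn
  have hexp : (0 : ℝ) ≤ (n : ℝ) - 1 / 5 + ε := by linarith
  have hpow : (1 : ℝ) ≤ (H : ℝ) ^ ((n : ℝ) - 1 / 5 + ε) := Real.one_le_rpow hHR hexp
  rcases le_or_gt H₁ H with h | h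
  · refine (key H h).trans ?_
    have : (0 : ℝ) ≤ (2 * (H₁ : ℝ) + 1) ^ n := by positivity
    nlinarith
  · have h1 := box_trivial H PP
    have h2 : ((2 * H + 1 : ℕ) : ℝ) ^ n ≤ (2 * (H₁ : ℝ) + 1) ^ n := by
      have : (H : ℝ) ≤ H₁ := by exact_mod_cast h.le
      push_cast
      gcongr
    have h3 : (Nat.card {c : Fin n → ℤ // (∀ j, |c j| ≤ H) ∧ PP c} : ℝ) ≤
        (2 * (H₁ : ℝ) + 1) ^ n := by
      refine le_trans ?_ h2
      rw [Fintype.card_fin] at h1
      exact_mod_cast h1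
    calc _ ≤ (2 * (H₁ : ℝ) + 1) ^ n := h3
      _ ≤ (1 + (2 * (H₁ : ℝ) + 1) ^ n) * 1 := by linarith
      _ ≤ _ := by
        apply mul_le_mul_of_nonneg_left hpow
        positivity

theorem absg : S_ABSG := absg_aux Pool.Agent.H133R3.DC.cls prmg' Pool.Agent.H582R4.MOM.mom
  Pool.Agent.H619R2.DDPARB.parb

end Pool.Agent.W659.FD
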