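import Mathlib

/-!
Project FD (helper659): rational points on double covers `w² = F(P; t)` of `A × 𝔸ⁿ`, where `A` is a
product of elliptic curves.  Definitions.
-/

set_option autoImplicit false

namespace Pool.Agent.W659.FD

open MvPolynomial

/-- `V` is a vector of homogeneous coordinates of a point of the curve `y² = x³ + a x + b` -/
def OnE {K : Type} [Field K] (a b : ℤ) (V : Fin 3 → K) : Prop :=
  V ≠ 0 ∧ V 1 ^ 2 * V 2 = V 0 ^ 3 + a * V 0 * V 2 ^ 2 + b * V 2 ^ 3

/-- the polynomials with integer coefficients in the coordinates `V i j` (`i : Fin r`, `j : Fin 3`)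
and the parameters `t k` (`k : Fin n`) -/
abbrev Poly (r n : ℕ) : Type := MvPolynomial ((Fin r × Fin 3) ⊕ Fin n) ℤ

/-- the value `F(V; t)` -/
noncomputable def val {K : Type} [Field K] {r n : ℕ} (F : Poly r n) (V : Fin r → Fin 3 → K)
    (t : Fin n → K) : K :=
  aeval (Sum.elim (fun ij => V ij.1 ij.2) t) F

/-- the polynomial `F(V; T_1, …, T_n)` in `n` variables -/
noncomputable def spec {K : Type} [Field K] {r n : ℕ} (F : Poly r n) (V : Fin r → Fin 3 → K) :
    MvPolynomial (Fin n) K :=
  aeval (Sum.elim (fun ij => C (V ij.1 ij.2)) X) F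

/-- the set of the points at which the value of `f` is a square -/
def Sq {K : Type} [Field K] {n : ℕ} (f : MvPolynomial (Fin n) K) : Set (Fin n → K) :=
  {t | ∃ w : K, w ^ 2 = eval t f}

theorem val_eq {K : Type} [Field K] {r n : ℕ} (F : Poly r n) (V : Fin r → Fin 3 → K)
    (t : Fin n → K) : val F V t = eval t (spec F V) := by
  have h : (aeval (Sum.elim (fun ij => V ij.1 ij.2) t) : Poly r n →ₐ[ℤ] K) =
      ((aeval t : MvPolynomial (Fin n) K →ₐ[K] K).restrictScalars ℤ).comp
        (aeval (Sum.elim (fun ij => C (V ij.1 ij.2)) X) : Poly r n →ₐ[ℤ] MvPolynomial (Fin n) K) := by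
    apply MvPolynomial.algHom_ext
    rintro (⟨i, j⟩ | k) <;> simp
  unfold val spec
  rw [h]
  simp [aeval_eq_eval]

end Pool.Agent.W659.FD
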