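import Pool.Agent.W659.FD.Geo0

/-! Project FD (helper659): a class of examples in every dimension. -/

set_option autoImplicit false

namespace Pool.Agent.W659.FD

open MvPolynomial

/-- `t₀ t₁ ∑_j f_j t₀^(2(k-j)) t₁^(2j)` -/
noncomputable def exPoly {r k : ℕ} (f : Fin (k + 1) → MvPolynomial (Fin r × Fin 3) ℤ) : Poly r 2 :=
  ∑ j : Fin (k + 1), rename Sum.inl (f j) *
    (X (Sum.inr 0) ^ (2 * (k - j) + 1) * X (Sum.inr 1) ^ (2 * (j : ℕ) + 1))

/-- the weights of the variables -/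
def wt (r n : ℕ) : (Fin r × Fin 3) ⊕ Fin n → (Fin r → ℕ) :=
  Sum.elim (fun ij => Pi.single ij.1 1) (fun _ => 0)

theorem weight_wt {r n : ℕ} (e : (Fin r × Fin 3) ⊕ Fin n →₀ ℕ) (i : Fin r) :
    Finsupp.weight (wt r n) e i = ∑ j, e (Sum.inl (i, j)) := by
  rw [Finsupp.weight_apply, Finsupp.sum_fintype _ _ (fun _ => by simp), Fintype.sum_sum_type,
    Fintype.sum_prod_type]
  simp only [wt, Sum.elim_inl, Sum.elim_inr, smul_zero, Finset.sum_const_zero, add_zero,
    Finset.sum_apply, Pi.smul_apply, smul_eq_mul]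
  rw [Finset.sum_eq_single i]
  · simp
  · intro i' _ hi'
    simp [Pi.single_eq_of_ne (Ne.symm hi')]
  · intro h
    exact absurd (Finset.mem_univ i) h

theorem multiHomog_iff {r n : ℕ} (F : Poly r n) (d : Fin r → ℕ) :
    MultiHomog F d ↔ IsWeightedHomogeneous (wt r n) F d := by
  constructor
  · intro h e he
    funext i
    rw [weight_wt]
    exact h e (mem_support_iff.2 he) i
  · intro h e he i
    have := congrFun (h (mem_support_iff.1 he)) i
    rw [weight_wt] at this
    exact this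

theorem exPoly_homog {r k : ℕ} (f : Fin (k + 1) → MvPolynomial (Fin r × Fin 3) ℤ)
    (d : Fin r → ℕ) (hf : ∀ s, ∀ e ∈ (f s).support, ∀ i, ∑ j, e (i, j) = d i) :
    MultiHomog (exPoly f) d := by
  rw [multiHomog_iff]
  unfold exPoly
  apply IsWeightedHomogeneous.sum
  intro s _
  have h1 : IsWeightedHomogeneous (wt r 2) (rename Sum.inl (f s) : Poly r 2) d := by
    rw [← multiHomog_iff]
    intro e he i
    classical
    rw [support_rename_of_injective Sum.inl_injective, Finset.mem_image] at he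
    obtain ⟨e', he', rfl⟩ := he
    rw [← hf s e' he' i]
    refine Finset.sum_congr rfl fun j _ => ?_
    exact Finsupp.mapDomain_apply Sum.inl_injective _ _
  have h2 : ∀ c : Fin 2, IsWeightedHomogeneous (wt r 2) (X (Sum.inr c) : Poly r 2) 0 := by
    intro c
    have := isWeightedHomogeneous_X ℤ (wt r 2) (Sum.inr c)
    exact this
  have h3 := ((h2 0).pow (2 * (k - s) + 1)).mul ((h2 1).pow (2 * (s : ℕ) + 1))
  have h4 := h1.mul h3
  simpa using h4

theorem map_aevalZ {σ A B : Type} [CommRing A] [CommRing B] [Algebra ℤ A] [Algebra ℤ B]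
    (φ : A →+* B) (f : σ → A) (q : MvPolynomial σ ℤ) :
    φ (aeval f q) = aeval (fun x => φ (f x)) q := by
  rw [aeval_def, aeval_def, hom_eval₂]
  congr 1
  exact RingHom.ext_int _ _

theorem spec_exPoly {K : Type} [Field K] {r k : ℕ}
    (f : Fin (k + 1) → MvPolynomial (Fin r × Fin 3) ℤ) (V : Fin r → Fin 3 → K) :
    spec (exPoly f) V = ∑ j : Fin (k + 1), C (aeval (fun ij => V ij.1 ij.2) (f j)) *
      (X 0 ^ (2 * (k - j) + 1) * X 1 ^ (2 * (j : ℕ) + 1)) := by
  unfold spec exPoly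
  rw [map_sum]
  refine Finset.sum_congr rfl fun j _ => ?_
  rw [map_mul, map_mul, map_pow, map_pow, aeval_X, aeval_X, aeval_rename]
  simp only [Sum.elim_inr]
  congr 1
  have h : (Sum.elim (fun ij : Fin r × Fin 3 => (C (V ij.1 ij.2) : MvPolynomial (Fin 2) K)) X) ∘
      Sum.inl = fun ij => C (V ij.1 ij.2) := rfl
  rw [h]
  exact (map_aevalZ (C : K →+* MvPolynomial (Fin 2) K) (fun ij : Fin r × Fin 3 => V ij.1 ij.2)
    (f j)).symm

theorem val_exPoly {K : Type} [Field K] {r k : ℕ}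
    (f : Fin (k + 1) → MvPolynomial (Fin r × Fin 3) ℤ) (V : Fin r → Fin 3 → K) (t : Fin 2 → K) :
    val (exPoly f) V t = t 0 * t 1 * ∑ j : Fin (k + 1), aeval (fun ij => V ij.1 ij.2) (f j) *
      (t 0 ^ (2 * (k - j)) * t 1 ^ (2 * (j : ℕ))) := by
  rw [val_eq, spec_exPoly, map_sum, Finset.mul_sum]
  refine Finset.sum_congr rfl fun j _ => ?_
  simp only [map_mul, map_pow, eval_C, eval_X]
  ring

theorem spec_exPoly_ne {r k : ℕ} (f : Fin (k + 1) → MvPolynomial (Fin r × Fin 3) ℤ)
    (V : Fin r → Fin 3 → ℂ) (hV : ∃ j, aeval (fun ij : Fin r × Fin 3 => V ij.1 ij.2) (f j) ≠ 0)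
    (g : MvPolynomial (Fin 2) ℂ) : spec (exPoly f) V ≠ g ^ 2 := by
  intro h
  set σ : MvPolynomial (Fin 2) ℂ →ₐ[ℂ] MvPolynomial (Fin 2) ℂ := aeval ![-X 0, X 1] with hσ
  have h1 : σ (spec (exPoly f) V) = - spec (exPoly f) V := by
    rw [spec_exPoly, map_sum, ← Finset.sum_neg_distrib]
    refine Finset.sum_congr rfl fun j _ => ?_
    simp only [hσ, map_mul, map_pow, aeval_X, algHom_C, algebraMap_eq, Matrix.cons_val_zero,
      Matrix.cons_val_one]
    rw [Odd.neg_pow ⟨k - j, rfl⟩]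
    ring
  have h2 : (C Complex.I : MvPolynomial (Fin 2) ℂ) ^ 2 = -1 := by
    rw [← map_pow, Complex.I_sq, map_neg, map_one]
  have h3 : (σ g) ^ 2 = (C Complex.I * g) ^ 2 := by
    rw [← map_pow, ← h, h1, h, mul_pow, h2]
    ring
  have hσσ : σ (σ g) = g := by
    have : (σ.comp σ) = AlgHom.id ℂ _ := by
      apply MvPolynomial.algHom_ext
      intro i
      fin_cases i <;> simp [hσ]
    exact congrArg (fun φ => φ g) this
  have hσI : ∀ q, σ (C Complex.I * q) = C Complex.I * σ q := by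
    intro q
    rw [map_mul]
    congr 1
    simp [hσ]
  have hg : g = 0 := by
    have h4 : g = -g := by
      rcases sq_eq_sq_iff_eq_or_eq_neg.1 h3 with h5 | h5
      · calc g = σ (σ g) := hσσ.symm
          _ = (C Complex.I) ^ 2 * g := by rw [h5, hσI, h5]; ring
          _ = -g := by rw [h2]; ring
      · calc g = σ (σ g) := hσσ.symm
          _ = (C Complex.I) ^ 2 * g := by rw [h5, map_neg, hσI, h5]; ring
          _ = -g := by rw [h2]; ring
    have h5 : (2 : MvPolynomial (Fin 2) ℂ) * g = 0 := by linear_combination h4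
    rcases mul_eq_zero.1 h5 with h6 | h6
    · exact absurd h6 two_ne_zero
    · exact h6
  obtain ⟨j₀, hj₀⟩ := hV
  apply hj₀
  rw [hg, spec_exPoly] at h
  have h7 := congrArg (coeff (Finsupp.single 0 (2 * (k - (j₀ : ℕ)) + 1) +
    Finsupp.single 1 (2 * (j₀ : ℕ) + 1))) h
  have h8 : ∀ (c : ℂ) (x y : ℕ), (C c * (X 0 ^ x * X 1 ^ y) : MvPolynomial (Fin 2) ℂ) =
      monomial (Finsupp.single 0 x + Finsupp.single 1 y) c := by
    intro c x y
    rw [X_pow_eq_monomial, X_pow_eq_monomial, monomial_mul, C_mul_monomial, one_mul, mul_one]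
  rw [coeff_sum] at h7
  rw [Finset.sum_eq_single j₀] at h7
  · rw [h8, coeff_monomial, if_pos rfl] at h7
    simpa using h7
  · intro j _ hj
    rw [h8, coeff_monomial, if_neg]
    intro h9
    apply hj
    have h10 := congrArg (fun e => e 1) h9
    simp at h10
    exact Fin.ext h10
  · intro h9
    exact absurd (Finset.mem_univ j₀) h9

end Pool.Agent.W659.FD
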