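import Pool.Agent.W659.FD.Stm

/-! Project FD (helper659): values of multihomogeneous polynomials. -/

set_option autoImplicit false

namespace Pool.Agent.W659.FD

open MvPolynomial

/-- multihomogeneous of degree `d i` in the coordinates of the `i`-th curve -/
def MultiHomog {r n : ℕ} (F : Poly r n) (d : Fin r → ℕ) : Prop :=
  ∀ e ∈ F.support, ∀ i, ∑ j, e (Sum.inl (i, j)) = d i

/-- the value in a commutative ring -/
noncomputable def valR {A : Type} [CommRing A] {r n : ℕ} (F : Poly r n) (V : Fin r → Fin 3 → A)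
    (t : Fin n → A) : A :=
  aeval (Sum.elim (fun ij => V ij.1 ij.2) t) F

theorem valR_eq {A : Type} [Field A] {r n : ℕ} (F : Poly r n) (V : Fin r → Fin 3 → A)
    (t : Fin n → A) : valR F V t = val F V t := rfl

theorem valR_map {A B : Type} [CommRing A] [CommRing B] (φ : A →+* B) {r n : ℕ} (F : Poly r n)
    (V : Fin r → Fin 3 → A) (t : Fin n → A) :
    φ (valR F V t) = valR F (fun i j => φ (V i j)) (fun k => φ (t k)) := by
  have h : (φ.toIntAlgHom.comp (aeval (Sum.elim (fun ij => V ij.1 ij.2) t)) : Poly r n →ₐ[ℤ] B) =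
      aeval (Sum.elim (fun ij => φ (V ij.1 ij.2)) (fun k => φ (t k))) := by
    apply MvPolynomial.algHom_ext
    rintro (⟨i, j⟩ | k) <;> simp
  exact congrArg (fun f => f F) h

theorem valR_expand {A : Type} [CommRing A] {r n : ℕ} (F : Poly r n) (V : Fin r → Fin 3 → A)
    (t : Fin n → A) : valR F V t =
      ∑ e ∈ F.support, ((coeff e F : ℤ) : A) * ((∏ i, ∏ j, V i j ^ e (Sum.inl (i, j))) *
        ∏ k, t k ^ e (Sum.inr k)) := by
  unfold valR
  rw [aeval_def, eval₂_eq']
  refine Finset.sum_congr rfl fun e _ => ?_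
  rw [Fintype.prod_sum_type, Fintype.prod_prod_type]
  simp

theorem valR_scale {A : Type} [CommRing A] {r n : ℕ} (F : Poly r n) (d : Fin r → ℕ)
    (hF : MultiHomog F d) (V : Fin r → Fin 3 → A) (t : Fin n → A) (u : Fin r → A) :
    valR F (fun i j => u i * V i j) t = (∏ i, u i ^ d i) * valR F V t := by
  rw [valR_expand, valR_expand, Finset.mul_sum]
  refine Finset.sum_congr rfl fun e he => ?_
  have h1 : ∏ i, ∏ j, (u i * V i j) ^ e (Sum.inl (i, j)) =
      (∏ i, u i ^ d i) * ∏ i, ∏ j, V i j ^ e (Sum.inl (i, j)) := by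
    rw [← Finset.prod_mul_distrib]
    refine Finset.prod_congr rfl fun i _ => ?_
    rw [← hF e he i, ← Finset.prod_pow_eq_pow_sum, ← Finset.prod_mul_distrib]
    refine Finset.prod_congr rfl fun j _ => ?_
    rw [mul_pow]
  rw [h1]
  ring

theorem spec_expand {K : Type} [Field K] {r n : ℕ} (F : Poly r n) (V : Fin r → Fin 3 → K) :
    spec F V = ∑ e ∈ F.support, C (((coeff e F : ℤ) : K) * ∏ i, ∏ j, V i j ^ e (Sum.inl (i, j))) *
        ∏ k, X k ^ e (Sum.inr k) := by
  have h := valR_expand F (fun i j => (C (V i j) : MvPolynomial (Fin n) K)) X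
  have h2 : valR F (fun i j => (C (V i j) : MvPolynomial (Fin n) K)) X = spec F V := rfl
  rw [← h2, h]
  refine Finset.sum_congr rfl fun e _ => ?_
  simp [map_prod, mul_assoc]

theorem totalDegree_spec_le {K : Type} [Field K] {r n : ℕ} (F : Poly r n)
    (V : Fin r → Fin 3 → K) : (spec F V).totalDegree ≤ F.totalDegree := by
  rw [spec_expand]
  refine (totalDegree_finsetSum _ _).trans ?_
  apply Finset.sup_le
  intro e he
  refine (totalDegree_mul _ _).trans ?_
  rw [totalDegree_C, zero_add]
  have h1 : (∏ k, (X k : MvPolynomial (Fin n) K) ^ e (Sum.inr k)).totalDegree ≤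
      ∑ k, e (Sum.inr k) := by
    refine (totalDegree_finsetProd _ _).trans ?_
    refine Finset.sum_le_sum fun k _ => ?_
    exact (totalDegree_pow _ _).trans (by rw [totalDegree_X, mul_one])
  refine h1.trans ?_
  have h2 := le_totalDegree he
  refine le_trans ?_ h2
  rw [Finsupp.sum_fintype _ _ (fun _ => rfl), Fintype.sum_sum_type]
  exact Nat.le_add_left _ _

end Pool.Agent.W659.FD
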