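import Pool.Agent.H901R3.MS.Stm
import Pool.Agent.W659.FD.Geo0

/-! Project FD (helper659): local conditions. -/

set_option autoImplicit false

namespace Pool.Agent.W659.FD

open MvPolynomial Pool.Agent.H901R3.MS WeierstrassCurve

theorem onE_rep {F : Type} [Field F] {a b : ℤ} (P : Pt (a : F) (b : F)) : FD.OnE a b (rep P) := by
  rcases P with _ | ⟨x, y, h⟩
  · refine ⟨fun h0 => ?_, ?_⟩
    · have := congrFun h0 1
      simp [rep] at this
    · simp [rep]
  · have he := eqn_of h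
    unfold Eqn at he
    refine ⟨fun h0 => ?_, ?_⟩
    · have := congrFun h0 2
      simp [rep] at this
    · simp [rep, he]

theorem local_sq {p : ℕ} [Fact p.Prime] (v : Place ℚ (ZMod p)) {r n : ℕ} (a b : Fin r → ℤ)
    (red : ∀ i, Pt (a i : ℚ) (b i : ℚ) → Pt (a i : ZMod p) (b i : ZMod p))
    (hrep : ∀ i, ∀ P : Pt (a i : ℚ) (b i : ℚ), ∃ u : ℚ, u ≠ 0 ∧
      ∀ j, u * rep P j ∈ v.A ∧ v.r (u * rep P j) = rep (red i P) j)
    (F : Poly r n) (d : Fin r → ℕ) (hd : ∀ i, Even (d i)) (hF : MultiHomog F d)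
    (P : ∀ i, Pt (a i : ℚ) (b i : ℚ)) (t : Fin n → ℤ) (w : ℚ)
    (hw : w ^ 2 = val F (fun i => rep (P i)) (fun k => (t k : ℚ))) :
    (fun k => (t k : ZMod p)) ∈ Sq (spec F (fun i => rep (red i (P i)))) := by
  choose u hu0 hu1 using fun i => hrep i (P i)
  choose k hk using hd
  set V' : Fin r → Fin 3 → v.A := fun i j => ⟨u i * rep (P i) j, (hu1 i j).1⟩ with hV'
  set x : v.A := valR F V' (fun k => ((t k : ℤ) : v.A)) with hx
  have hxQ : (x : ℚ) = (∏ i, u i ^ d i) * val F (fun i => rep (P i)) (fun k => (t k : ℚ)) := by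
    have h1 := valR_map v.A.subtype F V' (fun k => ((t k : ℤ) : v.A))
    have h2 : (v.A.subtype (valR F V' (fun k => ((t k : ℤ) : v.A)))) = (x : ℚ) := rfl
    rw [← h2, h1, ← valR_eq, ← valR_scale F d hF]
    congr 1
  have hsq : ((∏ i, u i ^ k i) * w) ^ 2 = (x : ℚ) := by
    rw [hxQ, mul_pow, hw]
    congr 1
    rw [← Finset.prod_pow]
    refine Finset.prod_congr rfl fun i _ => ?_
    rw [hk i, ← pow_mul, mul_two]
  have hmem2 : ((∏ i, u i ^ k i) * w) ^ 2 ∈ v.A := by rw [hsq]; exact x.2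
  have hmem := v.mem_of_pow_mem (by norm_num) hmem2
  have hval : v.r (x : ℚ) = val F (fun i => rep (red i (P i))) (fun k => (t k : ZMod p)) := by
    rw [v.r_of x.2]
    have h1 := valR_map v.ρ F V' (fun k => ((t k : ℤ) : v.A))
    have h2 : (⟨(x : ℚ), x.2⟩ : v.A) = valR F V' (fun k => ((t k : ℤ) : v.A)) := rfl
    rw [h2, h1, ← valR_eq]
    congr 1
    · funext i j
      have h3 := (hu1 i j).2
      rw [v.r_of (hu1 i j).1] at h3
      exact h3
    · funext k
      exact map_intCast v.ρ (t k)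
  refine ⟨v.r ((∏ i, u i ^ k i) * w), ?_⟩
  rw [← v.r_pow hmem, hsq, hval, val_eq]

/-- a rational point of the double cover lies over a point with standard coordinates -/
theorem std_point (hPTS : PTS) {r n : ℕ} (a b : Fin r → ℤ) (hdisc : ∀ i, Disc (a i : ℚ) (b i : ℚ))
    (F : Poly r n) (d : Fin r → ℕ) (hd : ∀ i, Even (d i)) (hF : MultiHomog F d)
    (t : Fin n → ℚ) (V : Fin r → Fin 3 → ℚ) (hV : ∀ i, FD.OnE (a i) (b i) (V i)) (w : ℚ)
    (hw : w ^ 2 = val F V t) :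
    ∃ (P : ∀ i, Pt (a i : ℚ) (b i : ℚ)) (w' : ℚ), w' ^ 2 = val F (fun i => rep (P i)) t := by
  have h1 : ∀ i, ∃ (P : Pt (a i : ℚ) (b i : ℚ)) (u : ℚ), u ≠ 0 ∧ ∀ j, V i j = u * rep P j :=
    fun i => hPTS (a i) (b i) (V i) (hdisc i) (hV i)
  choose P u hu0 hu1 using h1
  choose k hk using hd
  refine ⟨P, w / ∏ i, u i ^ k i, ?_⟩
  have h2 : V = fun i j => u i * rep (P i) j := by
    funext i j
    exact hu1 i j
  rw [h2, ← valR_eq, valR_scale F d hF, valR_eq] at hw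
  have h3 : (∏ i, u i ^ k i) ≠ 0 := by
    rw [Finset.prod_ne_zero_iff]
    intro i _
    exact pow_ne_zero _ (hu0 i)
  have h4 : ∏ i, u i ^ d i = (∏ i, u i ^ k i) ^ 2 := by
    rw [← Finset.prod_pow]
    refine Finset.prod_congr rfl fun i _ => ?_
    rw [hk i, ← pow_mul, mul_two]
  rw [div_pow, hw, h4]
  field_simp

end Pool.Agent.W659.FD
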