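import Pool.Agent.H925R3.DC.Stubs
import Pool.Agent.W659.FD.Geo1

/-! Project FD (helper659): assembly of the main theorem. -/

set_option autoImplicit false

namespace Pool.Agent.W659.FD

open MvPolynomial Pool.Agent.H901R3.MS WeierstrassCurve

/-- density of the set of the square values, `n` variables -/
def Dens : Prop := ∀ n D : ℕ, 1 ≤ n → ∃ p₁ : ℕ, ∀ (p : ℕ) [Fact p.Prime],
  p₁ ≤ p → ∀ f : MvPolynomial (Fin n) (ZMod p), f.totalDegree ≤ D →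
    (∀ (c : ZMod p) (g : MvPolynomial (Fin n) (ZMod p)), f ≠ C c * g ^ 2) →
    (((Sq f).ncard : ℕ) : ℝ) ≤ 3 / 4 * (p : ℝ) ^ n

/-- the reduction map exists and is a homomorphism -/
def RedP : Prop := ∀ (K k : Type) [Field K] [Field k] [DecidableEq K] [DecidableEq k]
  (v : Place K k) (a b : ℤ), Disc (a : k) (b : k) →
    ∃ red : Pt (a : K) (b : K) →+ Pt (a : k) (b : k), IsRed v a b red

/-- homogeneous coordinates of the reduction -/
def RepP : Prop := ∀ (K k : Type) [Field K] [Field k] (v : Place K k) (a b : ℤ)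
  (red : Pt (a : K) (b : K) → Pt (a : k) (b : k)), IsRed v a b red → ∀ P : Pt (a : K) (b : K),
    ∃ u : K, u ≠ 0 ∧ ∀ j, u * rep P j ∈ v.A ∧ v.r (u * rep P j) = rep (red P) j

/-- the main theorem, hypotheses modulo `p` -/
def Main1 : Prop := ∀ (r n : ℕ), 1 ≤ n → ∀ (a b : Fin r → ℤ) (M D : ℕ), 0 < M → 0 < D →
  (∀ i, 4 * a i ^ 3 + 27 * b i ^ 2 ≠ 0) →
  (∀ i, ∀ p : ℕ, p.Prime → ¬ p ∣ D → M ∣ p + 1 →
    Nat.card {z : ZMod p × ZMod p // z.2 ^ 2 = z.1 ^ 3 + a i * z.1 + b i} = p) →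
  ∀ (F : Poly r n) (d : Fin r → ℕ), (∀ i, Even (d i)) → MultiHomog F d →
  (∀ (p : ℕ) [Fact p.Prime], ¬ p ∣ D → M ∣ p + 1 →
    ∀ V : Fin r → Fin 3 → ZMod p, (∀ i, FD.OnE (a i) (b i) (V i)) →
      ∀ (c : ZMod p) (g : MvPolynomial (Fin n) (ZMod p)), spec F V ≠ C c * g ^ 2) →
  ∀ ε : ℝ, 0 < ε → ∃ C : ℝ, ∀ H : ℕ, 1 ≤ H →
    (({t : Fin n → ℤ | (∀ k, |t k| ≤ H) ∧ ∃ (V : Fin r → Fin 3 → ℚ) (w : ℚ),
      (∀ i, FD.OnE (a i) (b i) (V i)) ∧ w ^ 2 = val F V (fun k => (t k : ℚ))}.ncard : ℕ) : ℝ) ≤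
      C * (H : ℝ) ^ ((n : ℝ) - 1 / 5 + ε)

theorem disc_of {K : Type} [Field K] {a b : ℤ} (h2 : (2 : K) ≠ 0)
    (h : ((4 * a ^ 3 + 27 * b ^ 2 : ℤ) : K) ≠ 0) : Disc (a : K) (b : K) := by
  unfold Disc
  refine mul_ne_zero h2 ?_
  push_cast at h
  exact h

theorem main1_aux (hABS : S_ABSG) (hDens : Dens) (hRed : RedP) (hRep : RepP) (hPL : PL)
    (hPTS : PTS) (hM1 : M1) (hEXP : Pool.Agent.H925R3.DC.EXP) : Main1 := by
  classical
  intro r n hn a b M D hM hD hdisc hss F d hd hF hns ε hε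
  obtain ⟨p₁, hp₁⟩ := hDens n F.totalDegree hn
  have hdQ : ∀ i, Disc (a i : ℚ) (b i : ℚ) := fun i =>
    disc_of (by norm_num) (by exact_mod_cast hdisc i)
  have hfg : ∀ i, Module.Finite ℤ (Pt (a i : ℚ) (b i : ℚ)) := fun i =>
    Module.Finite.iff_addGroup_fg.2 (hM1 (a i) (b i) (hdQ i))
  haveI hFG : AddGroup.FG ((i : Fin r) → Pt (a i : ℚ) (b i : ℚ)) :=
    Module.Finite.iff_addGroup_fg.1 inferInstance
  set D' : ℕ := D * (∏ i, (4 * a i ^ 3 + 27 * b i ^ 2).natAbs) * p₁.factorial with hD'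
  have hD'pos : 0 < D' := by
    refine Nat.mul_pos (Nat.mul_pos hD (Nat.pos_of_ne_zero ?_)) (Nat.factorial_pos _)
    rw [Finset.prod_ne_zero_iff]
    intro i _
    exact Int.natAbs_ne_zero.2 (hdisc i)
  have key : ∀ p : ℕ, p.Prime → 2 < p → ¬ p ∣ D' → M ∣ p + 1 →
      ∃ Ωp : (∀ i, Pt (a i : ℚ) (b i : ℚ)) → Set (Fin n → ZMod p),
        (∀ P P' R : (∀ i, Pt (a i : ℚ) (b i : ℚ)), P = P' + (p + 1) • R → Ωp P = Ωp P') ∧
        (∀ P, ((Ωp P).ncard : ℝ) ≤ (1 - 1 / 4) * (p : ℝ) ^ n) ∧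
        (∀ (P : ∀ i, Pt (a i : ℚ) (b i : ℚ)) (t : Fin n → ℤ) (w : ℚ),
          w ^ 2 = val F (fun i => rep (P i)) (fun k => (t k : ℚ)) →
            (fun k => (t k : ZMod p)) ∈ Ωp P) := by
    intro p hp h2 hpD hMp
    haveI : Fact p.Prime := ⟨hp⟩
    have hpD1 : ¬ p ∣ D := fun h => hpD ((h.mul_right _).mul_right _)
    have hpp₁ : p₁ ≤ p := by
      by_contra hlt
      push Not at hlt
      exact hpD (Dvd.dvd.mul_left (Nat.dvd_factorial hp.pos hlt.le) _)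
    have hpd : ∀ i, ¬ (p : ℤ) ∣ 4 * a i ^ 3 + 27 * b i ^ 2 := by
      intro i h
      apply hpD
      apply Dvd.dvd.mul_right
      apply Dvd.dvd.mul_left
      exact (Int.natCast_dvd.1 h).trans (Finset.dvd_prod_of_mem _ (Finset.mem_univ i))
    have h2p : (2 : ZMod p) ≠ 0 := by
      intro h
      have h3 : ((2 : ℕ) : ZMod p) = 0 := by exact_mod_cast h
      rw [ZMod.natCast_eq_zero_iff] at h3
      have := Nat.le_of_dvd (by norm_num) h3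
      omega
    obtain ⟨v⟩ := hPL p
    have hdp : ∀ i, Disc (a i : ZMod p) (b i : ZMod p) := fun i => disc_of h2p (by
      intro h
      exact hpd i ((ZMod.intCast_zmod_eq_zero_iff_dvd _ p).1 h))
    have h1 : ∀ i, ∃ red : Pt (a i : ℚ) (b i : ℚ) →+ Pt (a i : ZMod p) (b i : ZMod p),
        IsRed v (a i) (b i) red := fun i => hRed ℚ (ZMod p) v (a i) (b i) (hdp i)
    choose red hred using h1
    have hkill : ∀ i, ∀ P : Pt (a i : ZMod p) (b i : ZMod p), (p + 1) • P = 0 := by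
      intro i P
      have h5 : ((p : ℤ) + 1) • P = 0 := hEXP p (a i) (b i) h2 (hpd i) (hss i p hp hpD1 hMp) P
      rw [← natCast_zsmul]
      push_cast
      exact h5
    refine ⟨fun P => Sq (spec F (fun i => rep (red i (P i)))), ?_, ?_, ?_⟩
    · intro P P' R hP
      have h5 : (fun i => rep (red i (P i))) = fun i => rep (red i (P' i)) := by
        funext i
        have hPi : P i = P' i + (p + 1) • R i := by rw [hP]; rfl
        rw [hPi, map_add, map_nsmul, hkill i, add_zero]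
      simp only
      rw [h5]
    · intro P
      have h5 := hp₁ p hpp₁ (spec F (fun i => rep (red i (P i)))) (totalDegree_spec_le F _)
        (fun c g => hns p hpD1 hMp _ (fun i => onE_rep _) c g)
      refine h5.trans (le_of_eq ?_)
      norm_num
    · intro P t w hw
      exact local_sq v a b (fun i => red i)
        (fun i P => hRep ℚ (ZMod p) v (a i) (b i) (red i) (hred i) P) F d hd hF P t w hw
  choose Ω0 hΩ1 hΩ2 hΩ3 using key
  set Ω : (p : ℕ) → (∀ i, Pt (a i : ℚ) (b i : ℚ)) → Set (Fin n → ZMod p) := fun p P =>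
    {t | ∃ (h1 : p.Prime) (h2 : 2 < p) (h3 : ¬ p ∣ D') (h4 : M ∣ p + 1), t ∈ Ω0 p h1 h2 h3 h4 P}
    with hΩ
  have hΩeq : ∀ (p : ℕ) (h1 : p.Prime) (h2 : 2 < p) (h3 : ¬ p ∣ D') (h4 : M ∣ p + 1) P,
      Ω p P = Ω0 p h1 h2 h3 h4 P := by
    intro p h1 h2 h3 h4 P
    ext t
    constructor
    · rintro ⟨_, _, _, _, h⟩
      exact h
    · intro h
      exact ⟨h1, h2, h3, h4, h⟩
  obtain ⟨C, hC⟩ := hABS (∀ i, Pt (a i : ℚ) (b i : ℚ)) n hn M D' hM hD'pos Ω (1 / 4) (by norm_num)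
    (by norm_num) (by
      intro p h1 h2 h3 h4
      constructor
      · intro P P' R hP
        rw [hΩeq p h1 h2 h3 h4, hΩeq p h1 h2 h3 h4]
        exact hΩ1 p h1 h2 h3 h4 P P' R hP
      · intro P
        rw [hΩeq p h1 h2 h3 h4]
        exact hΩ2 p h1 h2 h3 h4 P) ε hε
  refine ⟨C, fun H hH => ?_⟩
  refine le_trans ?_ (hC H hH)
  have hfin : {t : Fin n → ℤ | (∀ j, |t j| ≤ (H : ℤ)) ∧ ∃ P : (∀ i, Pt (a i : ℚ) (b i : ℚ)),
      ∀ p : ℕ, p.Prime → 2 < p → ¬ p ∣ D' → M ∣ p + 1 → (fun j => (t j : ZMod p)) ∈ Ω p P}.Finite := by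
    have : {c : Fin n → ℤ | ∀ j, c j ∈ Set.Icc (-(H : ℤ)) (H : ℤ)}.Finite :=
      Set.Finite.pi' fun _ => Set.finite_Icc _ _
    apply Set.Finite.subset this
    rintro c ⟨hc, -⟩ j
    exact ⟨(abs_le.1 (hc j)).1, (abs_le.1 (hc j)).2⟩
  have hsub : {t : Fin n → ℤ | (∀ k, |t k| ≤ (H : ℤ)) ∧ ∃ (V : Fin r → Fin 3 → ℚ) (w : ℚ),
      (∀ i, FD.OnE (a i) (b i) (V i)) ∧ w ^ 2 = val F V (fun k => (t k : ℚ))} ⊆
      {t : Fin n → ℤ | (∀ j, |t j| ≤ (H : ℤ)) ∧ ∃ P : (∀ i, Pt (a i : ℚ) (b i : ℚ)),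
      ∀ p : ℕ, p.Prime → 2 < p → ¬ p ∣ D' → M ∣ p + 1 → (fun j => (t j : ZMod p)) ∈ Ω p P} := by
    rintro t ⟨ht, V, w, hV, hw⟩
    obtain ⟨P, w', hw'⟩ := std_point hPTS a b hdQ F d hd hF _ V hV w hw
    refine ⟨ht, P, ?_⟩
    intro p h1 h2 h3 h4
    rw [hΩeq p h1 h2 h3 h4]
    exact hΩ3 p h1 h2 h3 h4 P t w' hw'
  exact_mod_cast Set.ncard_le_ncard hsub hfin

end Pool.Agent.W659.FD
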