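import Pool.Agent.H901R3.MS.P_R1
import Pool.Agent.H901R3.MS.P_R2
import Pool.Agent.H901R3.MS.P_R3
import Pool.Agent.H901R3.MS.P_R4
import Pool.Agent.H901R3.MS.P_R5
import Pool.Agent.H901R3.MS.P_R6
import Pool.Agent.H901R3.MS.P_R7
import Pool.Agent.H901R3.MS.P_PL
import Pool.Agent.H901R3.MS.P_PTS
import Pool.Agent.H901R3.MS.P_M1
import Pool.Agent.H477R5.DC_EXP
import Pool.Agent.H35R6.DC_CNT
import Pool.Agent.W327.FD.Line
import Pool.Agent.W346.FD.ULT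
import Pool.Agent.W340.FD.App
import Pool.Agent.W249.FD.UNI
import Pool.Agent.W659.FD.Geo2
import Pool.Agent.W659.FD.Ex
import Pool.Agent.W659.FD.Absg

/-! Project FD (helper659): everything put together. -/

set_option autoImplicit false

namespace Pool.Agent.W659.FD

open MvPolynomial Pool.Agent.H901R3.MS

theorem main1 : Main1 :=
  main1_aux absg (_root_.W327.FD.main Pool.Agent.W249.FD.main Pool.Agent.W340.FD.App.main)
    (t_R6 t_R1 t_R2 t_R3 t_R4 t_R5) (t_R7 t_R1) t_PL t_PTS t_M1 Pool.Agent.H477R5.DC.exp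

/-- the main theorem for curves with `j = 0` or `j = 1728`, geometric hypothesis over `ℂ` -/
theorem main2 (r n : ℕ) (hn : 1 ≤ n) (a b : Fin r → ℤ) (hab : ∀ i, a i * b i = 0 ∧ (a i ≠ 0 ∨ b i ≠ 0))
    (F : Poly r n) (d : Fin r → ℕ) (hd : ∀ i, Even (d i)) (hF : MultiHomog F d)
    (hns : ∀ V : Fin r → Fin 3 → ℂ, (∀ i, FD.OnE (a i) (b i) (V i)) →
      ∀ g : MvPolynomial (Fin n) ℂ, spec F V ≠ g ^ 2) (ε : ℝ) (hε : 0 < ε) :
    ∃ C : ℝ, ∀ H : ℕ, 1 ≤ H →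
    (({t : Fin n → ℤ | (∀ k, |t k| ≤ H) ∧ ∃ (V : Fin r → Fin 3 → ℚ) (w : ℚ),
      (∀ i, FD.OnE (a i) (b i) (V i)) ∧ w ^ 2 = val F V (fun k => (t k : ℚ))}.ncard : ℕ) : ℝ) ≤
      C * (H : ℝ) ^ ((n : ℝ) - 1 / 5 + ε) := by
  obtain ⟨p₁, hp₁⟩ := Pool.Agent.W346.FD.main r n a b F hns
  refine main1 r n hn a b 12 p₁.factorial (by norm_num) (Nat.factorial_pos _) ?_ ?_ F d hd hF ?_ ε hε
  · intro i h
    obtain ⟨h1, h2⟩ := hab i
    rcases mul_eq_zero.1 h1 with h3 | h3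
    · rw [h3] at h h2
      have h4 : (b i) ^ 2 = 0 := by linarith
      rcases h2 with h2 | h2
      · exact h2 rfl
      · exact h2 (pow_eq_zero_iff two_ne_zero |>.1 h4)
    · rw [h3] at h h2
      have h4 : (a i) ^ 3 = 0 := by linarith
      rcases h2 with h2 | h2
      · exact h2 (pow_eq_zero_iff three_ne_zero |>.1 h4)
      · exact h2 rfl
  · intro i p hp _ hM
    exact Pool.Agent.H35R6.DCCNT.cnt p (a i) (b i) hp hM (hab i).1
  · intro p hpf hpD _ V hV c g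
    refine hp₁ p ?_ V hV c g
    by_contra hlt
    push Not at hlt
    exact hpD (Nat.dvd_factorial hpf.out.pos hlt.le)

end Pool.Agent.W659.FD
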